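import Mathlib

set_option autoImplicit false
set_option linter.unusedSectionVars false

/-!
# Relative density inside unions of few product sets

`X` is a finite commutative group, `J j` are disjoint sets of coordinates, and `F` is a union of `T`
sets each of which is a product set with respect to the `J j`. If a set `A` has small density in all
the fibres of the coordinates `J j`, then it has small density in `F`, up to an exponentially small
error.
-/

namespace Pool.Agent.Q247.BW

open Finset Function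

variable {n : ℕ} {X : Type} [AddCommGroup X] [Fintype X] [DecidableEq X]

/-- the vectors supported in `V` -/
def tr (V : Finset (Fin n)) : Finset (Fin n → X) := univ.filter fun v => ∀ i, i ∉ V → v i = 0

theorem mem_tr {V : Finset (Fin n)} {v : Fin n → X} : v ∈ tr V ↔ ∀ i, i ∉ V → v i = 0 := by
  rw [tr, mem_filter]
  exact ⟨fun h => h.2, fun h => ⟨mem_univ _, h⟩⟩

theorem add_mem_tr {V : Finset (Fin n)} {v v' : Fin n → X} (h : v ∈ tr V) (h' : v' ∈ tr V) :
    v + v' ∈ tr V := by
  rw [mem_tr] at h h' ⊢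
  intro i hi
  rw [Pi.add_apply, h i hi, h' i hi, add_zero]

theorem sub_mem_tr {V : Finset (Fin n)} {v v' : Fin n → X} (h : v ∈ tr V) (h' : v' ∈ tr V) :
    v - v' ∈ tr V := by
  rw [mem_tr] at h h' ⊢
  intro i hi
  rw [Pi.sub_apply, h i hi, h' i hi, sub_zero]

theorem zero_mem_tr (V : Finset (Fin n)) : (0 : Fin n → X) ∈ tr V := mem_tr.2 fun _ _ => rfl

theorem tr_card (V : Finset (Fin n)) : (tr V : Finset (Fin n → X)).card = Fintype.card X ^ V.card := by
  classical
  have h : (tr V : Finset (Fin n → X)).card = (univ : Finset (V → X)).card := by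
    refine card_bij' (s := tr V) (t := (univ : Finset (V → X))) (fun v _ => fun i : V => v i)
      (fun f _ => fun i => if h : i ∈ V then f ⟨i, h⟩ else 0) ?_ ?_ ?_ ?_
    · intro v _
      exact mem_univ _
    · intro f _
      rw [mem_tr]
      intro i hi
      rw [dif_neg hi]
    · intro v hv
      funext i
      by_cases h : i ∈ V
      · simp [h]
      · simp [h, mem_tr.1 hv i h]
    · intro f _
      funext i
      simp
  rw [h, card_univ, Fintype.card_fun, Fintype.card_coe]

theorem tr_pos (V : Finset (Fin n)) : 0 < (tr V : Finset (Fin n → X)).card :=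
  card_pos.2 ⟨0, zero_mem_tr V⟩

/-- the number of the points of `B` in the fibre of `x` -/
def fib (B : Finset (Fin n → X)) (V : Finset (Fin n)) (x : Fin n → X) : ℕ :=
  ((tr V).filter fun v => x + v ∈ B).card

theorem fib_add (B : Finset (Fin n → X)) (V : Finset (Fin n)) (x : Fin n → X) {u : Fin n → X}
    (hu : u ∈ tr V) : fib B V (x + u) = fib B V x := by
  unfold fib
  apply card_bij' (fun v _ => u + v) (fun v _ => v - u)
  · intro v hv
    rw [mem_filter] at hv ⊢
    exact ⟨add_mem_tr hu hv.1, by rw [← add_assoc]; exact hv.2⟩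
  · intro v hv
    rw [mem_filter] at hv ⊢
    refine ⟨sub_mem_tr hv.1 hu, ?_⟩
    have : x + u + (v - u) = x + v := by abel
    rw [this]
    exact hv.2
  · intro v _
    show u + v - u = v
    abel
  · intro v _
    show u + (v - u) = v
    abel

/-- double counting -/
theorem sum_fib (B : Finset (Fin n → X)) (V : Finset (Fin n)) (R : (Fin n → X) → Prop)
    [DecidablePred R] (hR : ∀ x, ∀ v ∈ tr V, R (x + v) ↔ R x) :
    ∑ x ∈ univ.filter R, fib B V x = (tr V : Finset (Fin n → X)).card * (B.filter R).card := by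
  classical
  have h1 : ∑ x ∈ univ.filter R, fib B V x = ∑ v ∈ tr V,
      ((univ.filter R).filter fun x => x + v ∈ B).card := by
    simp only [fib, card_filter]
    exact sum_comm
  rw [h1, ← smul_eq_mul, ← sum_const]
  apply sum_congr rfl
  intro v hv
  apply card_bij' (fun x _ => x + v) (fun x _ => x - v)
  · intro x hx
    rw [mem_filter, mem_filter] at hx
    rw [mem_filter]
    exact ⟨hx.2, (hR x v hv).2 hx.1.2⟩
  · intro x hx
    rw [mem_filter] at hx
    rw [mem_filter, mem_filter, sub_add_cancel]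
    refine ⟨⟨mem_univ _, ?_⟩, hx.1⟩
    rw [← hR (x - v) v hv, sub_add_cancel]
    exact hx.2
  · intro x _
    simp
  · intro x _
    simp

/-- the size of an intersection of sets given by conditions on disjoint sets of coordinates -/
theorem prod_card {k : ℕ} (J : Fin k → Finset (Fin n)) (Q : Fin k → Finset (Fin n → X))
    (hQ : ∀ j j', j ≠ j' → ∀ x, ∀ v ∈ tr (J j'), x + v ∈ Q j ↔ x ∈ Q j) {η : ℝ} (hη : 0 ≤ η)
    (S : Finset (Fin k)) (hS : ∀ j ∈ S, ∀ x, (fib (Q j) (J j) x : ℝ) ≤ η * (tr (J j) : Finset (Fin n → X)).card) :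
    ((univ.filter fun x : Fin n → X => ∀ j ∈ S, x ∈ Q j).card : ℝ) ≤
      η ^ S.card * (Fintype.card X : ℝ) ^ n := by
  classical
  induction S using Finset.induction_on with
  | empty =>
    rw [card_empty, pow_zero, one_mul]
    have := card_le_univ (univ.filter fun x : Fin n → X => ∀ j ∈ (∅ : Finset (Fin k)), x ∈ Q j)
    rw [Fintype.card_fun, Fintype.card_fin] at this
    exact_mod_cast this
  | insert j S hj ih =>
    have ih' := ih fun j' hj' => hS j' (mem_insert_of_mem hj')
    have hinv : ∀ x, ∀ v ∈ tr (J j), ((∀ j' ∈ S, x + v ∈ Q j') ↔ ∀ j' ∈ S, x ∈ Q j') := by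
      intro x v hv
      have hne : ∀ j' ∈ S, j' ≠ j := fun j' hj' h => hj (h ▸ hj')
      constructor
      · intro h j' hj'
        exact (hQ j' j (hne j' hj') x v hv).1 (h j' hj')
      · intro h j' hj'
        exact (hQ j' j (hne j' hj') x v hv).2 (h j' hj')
    have h1 := sum_fib (Q j) (J j) (fun x => ∀ j' ∈ S, x ∈ Q j') hinv
    have h2 : (univ.filter fun x : Fin n → X => ∀ j' ∈ insert j S, x ∈ Q j') =
        (Q j).filter fun x => ∀ j' ∈ S, x ∈ Q j' := by
      ext x
      rw [mem_filter, mem_filter]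
      constructor
      · rintro ⟨-, h⟩
        exact ⟨h j (mem_insert_self _ _), fun j' hj' => h j' (mem_insert_of_mem hj')⟩
      · rintro ⟨h, h'⟩
        refine ⟨mem_univ _, fun j' hj' => ?_⟩
        rcases mem_insert.1 hj' with rfl | hj'
        · exact h
        · exact h' j' hj'
    rw [h2, card_insert_of_notMem hj, pow_succ]
    set t : ℝ := ((tr (J j) : Finset (Fin n → X)).card : ℝ) with ht
    have ht0 : 0 < t := by
      rw [ht]
      exact_mod_cast tr_pos (J j)
    have h3 : t * (((Q j).filter fun x => ∀ j' ∈ S, x ∈ Q j').card : ℝ) ≤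
        t * (η * ((univ.filter fun x : Fin n → X => ∀ j' ∈ S, x ∈ Q j').card : ℝ)) := by
      have h4 : t * (((Q j).filter fun x => ∀ j' ∈ S, x ∈ Q j').card : ℝ) =
          ∑ x ∈ univ.filter (fun x : Fin n → X => ∀ j' ∈ S, x ∈ Q j'), (fib (Q j) (J j) x : ℝ) := by
        rw [ht]
        exact_mod_cast h1.symm
      rw [h4]
      refine (sum_le_sum fun x _ => hS j (mem_insert_self _ _) x).trans (le_of_eq ?_)
      rw [sum_const, nsmul_eq_mul]
      ring
    have h5 := le_of_mul_le_mul_left h3 ht0
    calc (((Q j).filter fun x => ∀ j' ∈ S, x ∈ Q j').card : ℝ)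
        ≤ η * ((univ.filter fun x : Fin n → X => ∀ j' ∈ S, x ∈ Q j').card : ℝ) := h5
      _ ≤ η * (η ^ S.card * (Fintype.card X : ℝ) ^ n) := mul_le_mul_of_nonneg_left ih' hη
      _ = _ := by ring

/-- `P` is a product set with respect to the set `V` of coordinates and its complement -/
def Mix (V : Finset (Fin n)) (P : Finset (Fin n → X)) : Prop :=
  ∀ x ∈ P, ∀ y ∈ P, (fun i => if i ∈ V then y i else x i) ∈ P

/-- a product set with small fibres in many blocks is small -/
theorem box_card {k : ℕ} (J : Fin k → Finset (Fin n)) (hJ : ∀ j j', j ≠ j' → Disjoint (J j) (J j'))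
    (P : Finset (Fin n → X)) (hP : ∀ j, Mix (J j) P) {η : ℝ} (hη : 0 ≤ η) (S : Finset (Fin k))
    {x : Fin n → X} (hx : x ∈ P)
    (hS : ∀ j ∈ S, (fib P (J j) x : ℝ) ≤ η * (tr (J j) : Finset (Fin n → X)).card) :
    (P.card : ℝ) ≤ η ^ S.card * (Fintype.card X : ℝ) ^ n := by
  classical
  obtain ⟨Q, hQdef⟩ : ∃ Q : Fin k → Finset (Fin n → X), ∀ j y, y ∈ Q j ↔ ∃ z ∈ P, ∀ i ∈ J j, y i = z i :=
    ⟨fun j => univ.filter fun y => ∃ z ∈ P, ∀ i ∈ J j, y i = z i, fun j y => by simp⟩
  have h1 : P ⊆ univ.filter fun y : Fin n → X => ∀ j ∈ S, y ∈ Q j := by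
    intro y hy
    rw [mem_filter]
    exact ⟨mem_univ _, fun j _ => (hQdef j y).2 ⟨y, hy, fun _ _ => rfl⟩⟩
  have h2 := prod_card J Q (fun j j' hjj y v hv => by
    have key : ∀ i ∈ J j, v i = 0 := fun i hi =>
      mem_tr.1 hv i fun h => (disjoint_left.1 (hJ j j' hjj)) hi h
    rw [hQdef, hQdef]
    constructor
    · rintro ⟨z, hz, h⟩
      refine ⟨z, hz, fun i hi => ?_⟩
      have := h i hi
      rwa [Pi.add_apply, key i hi, add_zero] at this
    · rintro ⟨z, hz, h⟩
      refine ⟨z, hz, fun i hi => ?_⟩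
      rw [Pi.add_apply, key i hi, add_zero]
      exact h i hi) hη S (fun j hj y => by
    refine le_trans ?_ (hS j hj)
    have h3 : fib (Q j) (J j) y ≤ fib P (J j) x := by
      unfold fib
      apply card_le_card_of_injOn (fun v => fun i => if i ∈ J j then y i + v i - x i else 0)
      · intro v hv
        rw [mem_coe, mem_filter] at hv
        rw [mem_coe, mem_filter]
        obtain ⟨z, hz, h⟩ := (hQdef j _).1 hv.2
        refine ⟨mem_tr.2 fun i hi => by simp [hi], ?_⟩
        convert hP j x hx z hz using 1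
        funext i
        rw [Pi.add_apply]
        dsimp only
        by_cases hi : i ∈ J j
        · rw [if_pos hi, if_pos hi, ← h i hi, Pi.add_apply]
          abel
        · rw [if_neg hi, if_neg hi, add_zero]
      · intro v hv v' hv' h
        rw [mem_coe, mem_filter] at hv hv'
        funext i
        by_cases hi : i ∈ J j
        · have := congrFun h i
          simp only [hi, if_true] at this
          exact add_left_cancel (sub_left_inj.1 this)
        · rw [mem_tr.1 hv.1 i hi, mem_tr.1 hv'.1 i hi]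
    exact_mod_cast h3)
  refine le_trans ?_ h2
  exact_mod_cast card_le_card h1

/-- **Relative density inside unions of product sets.** -/
theorem rel_box {k : ℕ} (hk : 1 ≤ k) (J : Fin k → Finset (Fin n))
    (hJ : ∀ j j', j ≠ j' → Disjoint (J j) (J j')) (A F : Finset (Fin n → X))
    {ι : Type} [Fintype ι] (P : ι → Finset (Fin n → X)) (hP : ∀ s j, Mix (J j) (P s))
    (hF : ∀ x, x ∈ F ↔ ∃ s, x ∈ P s) {δ η : ℝ} (hδ : 0 ≤ δ) (hη : 0 < η) (hη1 : η ≤ 1)
    (hA : ∀ j x, (fib A (J j) x : ℝ) ≤ δ * η * (tr (J j) : Finset (Fin n → X)).card) :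
    ((A ∩ F).card : ℝ) ≤ 2 * δ * F.card +
      Fintype.card ι * (η ^ (k / 2 : ℝ) * (Fintype.card X : ℝ) ^ n) := by
  classical
  -- large fibres
  obtain ⟨R, hR⟩ : ∃ R : Fin k → (Fin n → X) → Prop, ∀ j x, R j x ↔
      η * ((tr (J j) : Finset (Fin n → X)).card : ℝ) ≤ fib F (J j) x := ⟨_, fun _ _ => Iff.rfl⟩
  have hRinv : ∀ j x, ∀ v ∈ tr (J j), R j (x + v) ↔ R j x := by
    intro j x v hv
    rw [hR, hR, fib_add F (J j) x hv]
  -- one block
  have h1 : ∀ j, (((A ∩ F).filter (R j)).card : ℝ) ≤ δ * F.card := by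
    intro j
    have e1 := sum_fib (A ∩ F) (J j) (R j) (hRinv j)
    have e2 := sum_fib F (J j) (R j) (hRinv j)
    set t : ℝ := ((tr (J j) : Finset (Fin n → X)).card : ℝ) with ht
    have ht0 : 0 < t := by
      rw [ht]
      exact_mod_cast tr_pos (J j)
    have e3 : t * (((A ∩ F).filter (R j)).card : ℝ) ≤ t * (δ * ((F.filter (R j)).card : ℝ)) := by
      have e4 : t * (((A ∩ F).filter (R j)).card : ℝ) =
          ∑ x ∈ univ.filter (R j), (fib (A ∩ F) (J j) x : ℝ) := by
        rw [ht]
        exact_mod_cast e1.symm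
      have e5 : t * ((F.filter (R j)).card : ℝ) = ∑ x ∈ univ.filter (R j), (fib F (J j) x : ℝ) := by
        rw [ht]
        exact_mod_cast e2.symm
      have e6 : t * (δ * ((F.filter (R j)).card : ℝ)) = δ * (t * ((F.filter (R j)).card : ℝ)) := by
        ring
      rw [e4, e6, e5, mul_sum]
      apply sum_le_sum
      intro x hx
      have hx' := (hR j x).1 (mem_filter.1 hx).2
      have e7 : (fib (A ∩ F) (J j) x : ℝ) ≤ fib A (J j) x := by
        have : fib (A ∩ F) (J j) x ≤ fib A (J j) x := by
          unfold fib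
          apply card_le_card
          intro v hv
          rw [mem_filter] at hv ⊢
          exact ⟨hv.1, (mem_inter.1 hv.2).1⟩
        exact_mod_cast this
      calc (fib (A ∩ F) (J j) x : ℝ) ≤ δ * η * t := e7.trans (hA j x)
        _ = δ * (η * t) := by ring
        _ ≤ _ := mul_le_mul_of_nonneg_left hx' hδ
    have e8 := le_of_mul_le_mul_left e3 ht0
    refine e8.trans (mul_le_mul_of_nonneg_left ?_ hδ)
    exact_mod_cast card_filter_le _ _
  -- good points
  obtain ⟨N, hN⟩ : ∃ N : (Fin n → X) → ℕ, ∀ x, N x = (univ.filter fun j => R j x).card :=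
    ⟨_, fun _ => rfl⟩
  have hk0 : (0 : ℝ) < k := by exact_mod_cast hk
  have h2 : (((A ∩ F).filter fun x => k ≤ 2 * N x).card : ℝ) ≤ 2 * δ * F.card := by
    have e1 : (k : ℝ) * (((A ∩ F).filter fun x => k ≤ 2 * N x).card : ℝ) ≤
        2 * ∑ j, (((A ∩ F).filter (R j)).card : ℝ) := by
      have e2 : ∑ j, ((A ∩ F).filter (R j)).card = ∑ x ∈ A ∩ F, N x := by
        simp only [hN, card_filter]
        exact sum_comm
      have e3 : k * ((A ∩ F).filter fun x => k ≤ 2 * N x).card ≤ 2 * ∑ x ∈ A ∩ F, N x := by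
        rw [mul_sum]
        calc k * ((A ∩ F).filter fun x => k ≤ 2 * N x).card
            = ∑ x ∈ (A ∩ F).filter (fun x => k ≤ 2 * N x), k := by
              rw [sum_const, smul_eq_mul, mul_comm]
          _ ≤ ∑ x ∈ (A ∩ F).filter (fun x => k ≤ 2 * N x), 2 * N x :=
              sum_le_sum fun x hx => (mem_filter.1 hx).2
          _ ≤ _ := sum_le_sum_of_subset (filter_subset _ _)
      rw [← e2] at e3
      exact_mod_cast e3
    have e4 : 2 * ∑ j, (((A ∩ F).filter (R j)).card : ℝ) ≤ 2 * (k * (δ * F.card)) := by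
      have := sum_le_sum fun j (_ : j ∈ (univ : Finset (Fin k))) => h1 j
      rw [sum_const, card_univ, Fintype.card_fin, nsmul_eq_mul] at this
      linarith
    have e5 : (k : ℝ) * (((A ∩ F).filter fun x => k ≤ 2 * N x).card : ℝ) ≤
        k * (2 * δ * F.card) := by
      refine e1.trans (e4.trans (le_of_eq ?_))
      ring
    exact le_of_mul_le_mul_left e5 hk0
  -- bad points
  have h3 : ∀ s, (((P s).filter fun x => ¬ k ≤ 2 * N x).card : ℝ) ≤
      η ^ (k / 2 : ℝ) * (Fintype.card X : ℝ) ^ n := by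
    intro s
    have hq : (0 : ℝ) ≤ (Fintype.card X : ℝ) ^ n := by positivity
    rcases ((P s).filter fun x => ¬ k ≤ 2 * N x).eq_empty_or_nonempty with he | ⟨x, hx⟩
    · rw [he, card_empty, Nat.cast_zero]
      positivity
    rw [mem_filter] at hx
    set S : Finset (Fin k) := univ.filter fun j => ¬ R j x with hS
    have hSN : S.card + N x = k := by
      rw [hS, hN, add_comm]
      have := card_filter_add_card_filter_not (s := (univ : Finset (Fin k))) (fun j => R j x)
      rw [card_univ, Fintype.card_fin] at this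
      exact this
    have hbox := box_card J hJ (P s) (hP s) hη.le S hx.1 (fun j hj => by
      have h4 : ¬ R j x := (mem_filter.1 hj).2
      rw [hR] at h4
      push Not at h4
      refine le_trans ?_ h4.le
      have : fib (P s) (J j) x ≤ fib F (J j) x := by
        unfold fib
        apply card_le_card
        intro v hv
        rw [mem_filter] at hv ⊢
        exact ⟨hv.1, (hF _).2 ⟨s, hv.2⟩⟩
      exact_mod_cast this)
    have h5 : (((P s).filter fun x => ¬ k ≤ 2 * N x).card : ℝ) ≤ (P s).card := by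
      exact_mod_cast card_filter_le _ _
    refine h5.trans (hbox.trans ?_)
    apply mul_le_mul_of_nonneg_right _ hq
    rw [← Real.rpow_natCast]
    apply Real.rpow_le_rpow_of_exponent_ge hη hη1
    have h6 : k < 2 * S.card := by
      have := hx.2
      omega
    have h7 : (k : ℝ) < 2 * S.card := by exact_mod_cast h6
    linarith
  -- together
  have h4 : A ∩ F ⊆ ((A ∩ F).filter fun x => k ≤ 2 * N x) ∪
      univ.biUnion fun s => (P s).filter fun x => ¬ k ≤ 2 * N x := by
    intro x hx
    rw [mem_union]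
    by_cases h : k ≤ 2 * N x
    · exact Or.inl (mem_filter.2 ⟨hx, h⟩)
    · right
      obtain ⟨s, hs⟩ := (hF x).1 (mem_inter.1 hx).2
      exact mem_biUnion.2 ⟨s, mem_univ _, mem_filter.2 ⟨hs, h⟩⟩
  have h5 : (A ∩ F).card ≤ ((A ∩ F).filter fun x => k ≤ 2 * N x).card +
      ∑ s, ((P s).filter fun x => ¬ k ≤ 2 * N x).card :=
    (card_le_card h4).trans ((card_union_le _ _).trans (Nat.add_le_add_left card_biUnion_le _))
  have h6 : ((A ∩ F).card : ℝ) ≤ (((A ∩ F).filter fun x => k ≤ 2 * N x).card : ℝ) +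
      ∑ s, (((P s).filter fun x => ¬ k ≤ 2 * N x).card : ℝ) := by exact_mod_cast h5
  have h7 := sum_le_sum fun s (_ : s ∈ (univ : Finset ι)) => h3 s
  rw [sum_const, card_univ, nsmul_eq_mul] at h7
  linarith

end Pool.Agent.Q247.BW
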