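import Pool.Agent.Q247.BW.Mach
import Pool.Agent.Q247.AC.Line

set_option autoImplicit false
set_option linter.unusedSectionVars false

/-!
# Line-free sets of words inside unions of product sets and inside sets decided by machines
-/

namespace Pool.Agent.Q247.BW

open Finset Function

section
variable {n : ℕ} {X : Type}

/-- `A` contains no combinatorial line -/
def LineFree (A : Finset (Fin n → X)) : Prop :=
  ∀ V : Fin n → X ⊕ Unit, (∃ i, V i = Sum.inr ()) → ∃ a : X, (fun l => Sum.elim id (fun _ => a) (V l)) ∉ A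

variable [AddCommGroup X] [Fintype X] [DecidableEq X]

/-- the contents `t` are written into the positions `V` of `x` -/
def put {m : ℕ} {V : Finset (Fin n)} (e : V ≃ Fin m) (x : Fin n → X) (t : Fin m → X) : Fin n → X :=
  fun i => if h : i ∈ V then t (e ⟨i, h⟩) else x i

theorem fib_put {m : ℕ} {V : Finset (Fin n)} (e : V ≃ Fin m) (A : Finset (Fin n → X))
    (x : Fin n → X) : fib A V x = (univ.filter fun t : Fin m → X => put e x t ∈ A).card := by
  unfold fib
  refine card_bij' (fun v _ => fun l => x (e.symm l) + v (e.symm l))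
    (fun t _ => fun i => if h : i ∈ V then t (e ⟨i, h⟩) - x i else 0) ?_ ?_ ?_ ?_
  · intro v hv
    rw [mem_filter] at hv ⊢
    refine ⟨mem_univ _, ?_⟩
    convert hv.2 using 1
    funext i
    unfold put
    by_cases h : i ∈ V
    · rw [dif_pos h]
      dsimp only
      rw [Equiv.symm_apply_apply]
      rfl
    · rw [dif_neg h, Pi.add_apply, mem_tr.1 hv.1 i h, add_zero]
  · intro t ht
    rw [mem_filter] at ht ⊢
    refine ⟨mem_tr.2 fun i hi => by rw [dif_neg hi], ?_⟩
    convert ht.2 using 1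
    funext i
    unfold put
    rw [Pi.add_apply]
    by_cases h : i ∈ V
    · rw [dif_pos h, dif_pos h, add_sub_cancel]
    · rw [dif_neg h, dif_neg h, add_zero]
  · intro v hv
    rw [mem_filter] at hv
    funext i
    by_cases h : i ∈ V
    · simp [h]
    · simp [h, mem_tr.1 hv.1 i h]
  · intro t _
    funext l
    simp

theorem lineFree_put {m : ℕ} {V : Finset (Fin n)} (e : V ≃ Fin m) {A : Finset (Fin n → X)}
    (hA : LineFree A) (x : Fin n → X) :
    LineFree (univ.filter fun t : Fin m → X => put e x t ∈ A) := by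
  intro U hU
  obtain ⟨l, hl⟩ := hU
  obtain ⟨a, ha⟩ := hA (fun i => if h : i ∈ V then U (e ⟨i, h⟩) else Sum.inl (x i))
    ⟨e.symm l, by simp [hl]⟩
  refine ⟨a, fun hmem => ha ?_⟩
  have h1 := (mem_filter.1 hmem).2
  convert h1 using 1
  funext i
  unfold put
  by_cases h : i ∈ V
  · rw [dif_pos h, dif_pos h]
  · rw [dif_neg h, dif_neg h]
    rfl

end

/-- the fibres of a line-free set have small density -/
theorem lineFree_fib (X : Type) [AddCommGroup X] [Fintype X] [DecidableEq X] (δ : ℝ) (hδ : 0 < δ) :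
    ∃ m : ℕ, 1 ≤ m ∧ ∀ (n : ℕ) (A : Finset (Fin n → X)), LineFree A → ∀ V : Finset (Fin n),
      m ≤ V.card → ∀ x, (fib A V x : ℝ) ≤ δ * (Fintype.card X : ℝ) ^ V.card := by
  classical
  obtain ⟨m, hm, h⟩ := AC.dens_card X δ hδ
  refine ⟨m, hm, fun n A hA V hV x => ?_⟩
  set e : V ≃ Fin V.card := V.equivFin
  rw [fib_put e]
  by_contra hcon
  push Not at hcon
  obtain ⟨U, i, hi, hU⟩ := h V.card hV _ hcon
  obtain ⟨a, ha⟩ := lineFree_put e hA x U ⟨i, hi⟩
  exact ha (hU a)

/-- line-free sets inside unions of product sets -/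
theorem lineFree_box (X : Type) [AddCommGroup X] [Fintype X] [DecidableEq X] (δ : ℝ) (hδ : 0 < δ)
    (hδ1 : δ ≤ 1) :
    ∃ m : ℕ, 1 ≤ m ∧ ∀ (n k : ℕ) (J : Fin k → Finset (Fin n)),
      (∀ j j', j ≠ j' → Disjoint (J j) (J j')) → (∀ j, m ≤ (J j).card) →
      ∀ (A F : Finset (Fin n → X)) {ι : Type} [Fintype ι] (P : ι → Finset (Fin n → X)),
      (∀ s j, Mix (J j) (P s)) → (∀ x, x ∈ F ↔ ∃ s, x ∈ P s) → LineFree A →
      ((A ∩ F).card : ℝ) ≤ δ * F.card + Fintype.card ι * (δ ^ k * (Fintype.card X : ℝ) ^ n) := by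
  classical
  obtain ⟨m, hm, h⟩ := lineFree_fib X (δ / 2 * δ ^ 2) (by positivity)
  refine ⟨m, hm, fun n k J hJ hJm A F ι _ P hP hF hA => ?_⟩
  rcases Nat.eq_zero_or_pos k with rfl | hk
  · have h1 : (A ∩ F).card ≤ Fintype.card ι * Fintype.card X ^ n := by
      have h2 : A ∩ F ⊆ univ.biUnion P := by
        intro x hx
        obtain ⟨s, hs⟩ := (hF x).1 (mem_inter.1 hx).2
        exact mem_biUnion.2 ⟨s, mem_univ _, hs⟩
      refine (card_le_card h2).trans (card_biUnion_le.trans ?_)
      have := sum_le_sum fun s (_ : s ∈ (univ : Finset ι)) => card_le_univ (P s)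
      rw [sum_const, card_univ, smul_eq_mul, Fintype.card_fun, Fintype.card_fin] at this
      exact this
    have h2 : ((A ∩ F).card : ℝ) ≤ Fintype.card ι * (Fintype.card X : ℝ) ^ n := by
      exact_mod_cast h1
    have h3 : 0 ≤ δ * (F.card : ℝ) := by positivity
    rw [pow_zero, one_mul]
    linarith
  have h1 := rel_box hk J hJ A F P hP hF (δ := δ / 2) (η := δ ^ 2) (by positivity) (by positivity)
    (by nlinarith) (fun j x => by
      rw [tr_card]
      push_cast
      exact h n A hA (J j) (hJm j) x)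
  refine h1.trans (le_of_eq ?_)
  have e : (δ ^ 2) ^ ((k : ℝ) / 2) = δ ^ k := by
    rw [← Real.rpow_natCast δ 2, ← Real.rpow_mul hδ.le]
    push_cast
    rw [mul_div_cancel₀ _ (by norm_num : (2 : ℝ) ≠ 0), Real.rpow_natCast]
  rw [e]
  ring

/-- line-free sets inside sets decided by machines -/
theorem lineFree_machine (X : Type) [AddCommGroup X] [Fintype X] [DecidableEq X] (w : ℕ)
    (hw : 1 ≤ w) (δ : ℝ) (hδ : 0 < δ) :
    ∃ m : ℕ, 1 ≤ m ∧ ∀ (n T : ℕ) (order : Fin n ≃ Fin n) (A F : Finset (Fin n → X))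
      (B : Fin T → Finset (Fin n → X)), (∀ x, x ∈ F ↔ ∃ s, x ∈ B s) →
      (∀ s, ∃ (Q : Type) (_ : Fintype Q) (M : Machine Q X), Fintype.card Q ≤ w ∧
        ∀ x, x ∈ B s ↔ M.Accepts order x) → LineFree A →
      ((A ∩ F).card : ℝ) ≤ δ * F.card +
        T * w * (Fintype.card X : ℝ) ^ n * (1 / 2 : ℝ) ^ (n / m) := by
  classical
  have hwr : (1 : ℝ) ≤ w := by exact_mod_cast hw
  obtain ⟨m, hm, h⟩ := lineFree_fib X (δ / 2 * (1 / (4 * (w : ℝ) ^ 2))) (by positivity)
  refine ⟨m, hm, fun n T order A F B hF hB hA => ?_⟩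
  have h1 := rel_machine (by omega : 0 < m) hw order A F B hF hB (δ := δ / 2) (by positivity)
    (fun V hV x => by
      have := h n A hA V hV.ge x
      rwa [hV] at this)
  refine h1.trans (le_of_eq ?_)
  ring

end Pool.Agent.Q247.BW
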