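import Pool.Agent.Q247.BW.Box

set_option autoImplicit false
set_option linter.unusedSectionVars false

/-!
# Machines with few states
-/

namespace Pool.Agent.Q247.BW

open Finset Function

/-- A nondeterministic machine with state set `Q` over the alphabet `X`; the transitions may depend
on the time. -/
structure Machine (Q X : Type) where
  /-- initial states -/
  start : Q → Prop
  /-- `step t q g q'`: at time `t`, in the state `q`, after reading `g`, it may enter the state `q'` -/
  step : ℕ → Q → X → Q → Prop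
  /-- accepting states -/
  accept : Q → Prop

/-- The machine reads the `n` letters of the word `x` in the given order, each one once, and has an
accepting run. -/
def Machine.Accepts {Q X : Type} (M : Machine Q X) {n : ℕ} (order : Fin n ≃ Fin n)
    (x : Fin n → X) : Prop :=
  ∃ r : ℕ → Q, M.start (r 0) ∧ M.accept (r n) ∧ ∀ t : Fin n, M.step t (r t) (x (order t)) (r (t + 1))

section
variable {n : ℕ} {X : Type}

/-- the words with an accepting run with given states at the multiples of `m` -/
def Piece {Q : Type} (M : Machine Q X) (order : Fin n ≃ Fin n) (m : ℕ)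
    (q : Fin (n / m + 1) → Q) (x : Fin n → X) : Prop :=
  ∃ r : ℕ → Q, M.start (r 0) ∧ M.accept (r n) ∧
    (∀ t : Fin n, M.step t (r t) (x (order t)) (r (t + 1))) ∧
    ∀ j : Fin (n / m + 1), r (j * m) = q j

theorem accepts_iff {Q : Type} (M : Machine Q X) (order : Fin n ≃ Fin n) (m : ℕ)
    (x : Fin n → X) : M.Accepts order x ↔ ∃ q, Piece M order m q x := by
  constructor
  · rintro ⟨r, h1, h2, h3⟩
    exact ⟨fun j => r (j * m), r, h1, h2, h3, fun _ => rfl⟩
  · rintro ⟨q, r, h1, h2, h3, -⟩
    exact ⟨r, h1, h2, h3⟩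

/-- the coordinates read at the times of a block -/
def tblk (order : Fin n ≃ Fin n) (m j : ℕ) : Finset (Fin n) :=
  univ.filter fun i => ((order.symm i : Fin n) : ℕ) / m = j

theorem tblk_disjoint (order : Fin n ≃ Fin n) (m : ℕ) {j j' : ℕ} (h : j ≠ j') :
    Disjoint (tblk order m j) (tblk order m j') := by
  rw [disjoint_left]
  intro b hb hb'
  exact h ((mem_filter.1 hb).2.symm.trans (mem_filter.1 hb').2)

theorem tblk_card (order : Fin n ≃ Fin n) {m : ℕ} (hm : 0 < m) {j : ℕ} (hj : j < n / m) :
    (tblk order m j).card = m := by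
  have hlt : ∀ l : Fin m, j * m + l < n := by
    intro l
    have h1 : (j + 1) * m ≤ n / m * m := Nat.mul_le_mul_right _ hj
    have h2 := Nat.div_mul_le_self n m
    have h3 := l.2
    have h4 : (j + 1) * m = j * m + m := by ring
    omega
  have h : (univ : Finset (Fin m)).card = (tblk order m j).card := by
    apply card_bij (fun (l : Fin m) _ => order ⟨j * m + l, hlt l⟩)
    · intro l _
      rw [tblk, mem_filter]
      refine ⟨mem_univ _, ?_⟩
      rw [Equiv.symm_apply_apply]
      show (j * m + (l : ℕ)) / m = j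
      rw [mul_comm, Nat.mul_add_div hm, Nat.div_eq_of_lt l.2, add_zero]
    · intro l _ l' _ h
      have h1 := order.injective h
      have h2 : j * m + (l : ℕ) = j * m + l' := congrArg Fin.val h1
      apply Fin.ext
      omega
    · intro i hi
      have h := (mem_filter.1 hi).2
      refine ⟨⟨((order.symm i : Fin n) : ℕ) % m, Nat.mod_lt _ hm⟩, mem_univ _, ?_⟩
      rw [← Equiv.eq_symm_apply]
      apply Fin.ext
      show j * m + ((order.symm i : Fin n) : ℕ) % m = ((order.symm i : Fin n) : ℕ)
      rw [← h, mul_comm]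
      exact Nat.div_add_mod _ _
  rw [← h, card_univ, Fintype.card_fin]

theorem piece_mix [Fintype X] [DecidableEq X] {Q : Type} (M : Machine Q X) (order : Fin n ≃ Fin n)
    {m : ℕ} (hm : 0 < m) (q : Fin (n / m + 1) → Q) {x y : Fin n → X} (hx : Piece M order m q x)
    (hy : Piece M order m q y) {j : ℕ} (hj : j < n / m) :
    Piece M order m q (fun i => if i ∈ tblk order m j then y i else x i) := by
  obtain ⟨r, h1, h2, h3, h4⟩ := hx
  obtain ⟨r', h1', h2', h3', h4'⟩ := hy
  have hjn : (j + 1) * m ≤ n := by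
    have h5 : (j + 1) * m ≤ n / m * m := Nat.mul_le_mul_right _ hj
    have h6 := Nat.div_mul_le_self n m
    omega
  have ea : r (j * m) = r' (j * m) := by
    have e1 := h4 ⟨j, by omega⟩
    have e2 := h4' ⟨j, by omega⟩
    exact e1.trans e2.symm
  have eb : r ((j + 1) * m) = r' ((j + 1) * m) := by
    have e1 := h4 ⟨j + 1, by omega⟩
    have e2 := h4' ⟨j + 1, by omega⟩
    exact e1.trans e2.symm
  have hm1 : (j + 1) * m = j * m + m := by ring
  -- the new run
  refine ⟨fun t => if j * m ≤ t ∧ t ≤ (j + 1) * m then r' t else r t, ?_, ?_, ?_, ?_⟩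
  · dsimp only
    split_ifs
    · exact h1'
    · exact h1
  · dsimp only
    split_ifs
    · exact h2'
    · exact h2
  · intro t
    have hmem : order t ∈ tblk order m j ↔ (t : ℕ) / m = j := by
      rw [tblk, mem_filter, Equiv.symm_apply_apply]
      exact ⟨fun h => h.2, fun h => ⟨mem_univ _, h⟩⟩
    dsimp only
    by_cases ht : (t : ℕ) / m = j
    · rw [if_pos (hmem.2 ht)]
      have h5 : j * m ≤ t := by
        rw [← ht]
        exact Nat.div_mul_le_self _ _
      have h6 : (t : ℕ) < (j + 1) * m := by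
        rw [← ht]
        have := Nat.lt_div_mul_add (a := (t : ℕ)) hm
        calc (t : ℕ) < (t : ℕ) / m * m + m := this
          _ = _ := by ring
      rw [if_pos ⟨h5, h6.le⟩, if_pos ⟨by omega, by omega⟩]
      exact h3' t
    · rw [if_neg (fun h => ht (hmem.1 h))]
      have h5 : (t : ℕ) < j * m ∨ (j + 1) * m ≤ t := by
        by_contra hcon
        push Not at hcon
        apply ht
        apply Nat.div_eq_of_lt_le
        · exact hcon.1
        · exact hcon.2
      have e1 : (if j * m ≤ (t : ℕ) ∧ (t : ℕ) ≤ (j + 1) * m then r' t else r t) = r t := by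
        rcases h5 with h5 | h5
        · rw [if_neg (by omega)]
        · by_cases h6 : (t : ℕ) = (j + 1) * m
          · rw [if_pos ⟨by omega, by omega⟩, h6, eb]
          · rw [if_neg (by omega)]
      have e2 : (if j * m ≤ (t : ℕ) + 1 ∧ (t : ℕ) + 1 ≤ (j + 1) * m then r' (t + 1)
          else r (t + 1)) = r (t + 1) := by
        rcases h5 with h5 | h5
        · by_cases h6 : (t : ℕ) + 1 = j * m
          · rw [if_pos ⟨by omega, by omega⟩, h6, ea]
          · rw [if_neg (by omega)]
        · rw [if_neg (by omega)]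
      rw [e1, e2]
      exact h3 t
  · intro l
    dsimp only
    split_ifs
    · exact h4' l
    · exact h4 l

end

section
variable {n : ℕ} {X : Type} [AddCommGroup X] [Fintype X] [DecidableEq X]

/-- **Relative density inside unions of sets decided by machines with few states.** -/
theorem rel_machine {m w T : ℕ} (hm : 0 < m) (hw : 1 ≤ w) (order : Fin n ≃ Fin n)
    (A F : Finset (Fin n → X)) (B : Fin T → Finset (Fin n → X)) (hF : ∀ x, x ∈ F ↔ ∃ s, x ∈ B s)
    (hB : ∀ s, ∃ (Q : Type) (_ : Fintype Q) (M : Machine Q X), Fintype.card Q ≤ w ∧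
      ∀ x, x ∈ B s ↔ M.Accepts order x)
    {δ : ℝ} (hδ : 0 ≤ δ)
    (hA : ∀ (V : Finset (Fin n)), V.card = m → ∀ x, (fib A V x : ℝ) ≤
      δ * (1 / (4 * (w : ℝ) ^ 2)) * (Fintype.card X : ℝ) ^ m) :
    ((A ∩ F).card : ℝ) ≤ 2 * δ * F.card +
      T * w * (Fintype.card X : ℝ) ^ n * (1 / 2 : ℝ) ^ (n / m) := by
  classical
  choose Q hQ M hcard hacc using hB
  set k := n / m with hk
  have hXn : (0 : ℝ) ≤ (Fintype.card X : ℝ) ^ n := by positivity
  have hwr : (1 : ℝ) ≤ w := by exact_mod_cast hw
  have hw0 : (0 : ℝ) < w := by linarith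
  rcases Nat.eq_zero_or_pos k with hk0 | hkpos
  · rw [hk0, pow_zero, mul_one]
    have h1 : ((A ∩ F).card : ℝ) ≤ T * (Fintype.card X : ℝ) ^ n := by
      have h2 : A ∩ F ⊆ univ.biUnion B := by
        intro x hx
        obtain ⟨s, hs⟩ := (hF x).1 (mem_inter.1 hx).2
        exact mem_biUnion.2 ⟨s, mem_univ _, hs⟩
      have h3 : (A ∩ F).card ≤ ∑ s, (B s).card := (card_le_card h2).trans card_biUnion_le
      have h4 : ∑ s, (B s).card ≤ T * Fintype.card X ^ n := by
        have := sum_le_sum fun s (_ : s ∈ (univ : Finset (Fin T))) => card_le_univ (B s)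
        rw [sum_const, card_univ, Fintype.card_fin, smul_eq_mul, Fintype.card_fun,
          Fintype.card_fin] at this
        exact this
      exact_mod_cast h3.trans h4
    have h2 : (T : ℝ) * (Fintype.card X : ℝ) ^ n ≤ T * w * (Fintype.card X : ℝ) ^ n := by
      have : (0 : ℝ) ≤ T * (Fintype.card X : ℝ) ^ n := by positivity
      nlinarith
    have h3 : 0 ≤ 2 * δ * (F.card : ℝ) := by positivity
    linarith
  -- the pieces
  set η : ℝ := 1 / (4 * (w : ℝ) ^ 2) with hη
  have hη0 : 0 < η := by positivity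
  have hη1 : η ≤ 1 := by
    rw [hη, div_le_one (by positivity)]
    nlinarith
  have h := rel_box hkpos (fun j : Fin k => tblk order m j)
    (fun j j' hjj => tblk_disjoint order m fun h => hjj (Fin.ext h)) A F
    (ι := Σ s : Fin T, (Fin (k + 1) → Q s))
    (fun s => univ.filter fun x => Piece (M s.1) order m s.2 x) ?_ ?_ hδ hη0 hη1 ?_
  · refine h.trans (add_le_add le_rfl ?_)
    have hι : (Fintype.card (Σ s : Fin T, (Fin (k + 1) → Q s)) : ℝ) ≤ T * (w : ℝ) ^ (k + 1) := by
      have h1 : Fintype.card (Σ s : Fin T, (Fin (k + 1) → Q s)) ≤ T * w ^ (k + 1) := by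
        rw [Fintype.card_sigma]
        have h2 : ∀ s ∈ (univ : Finset (Fin T)), Fintype.card (Fin (k + 1) → Q s) ≤ w ^ (k + 1) := by
          intro s _
          rw [Fintype.card_fun, Fintype.card_fin]
          exact Nat.pow_le_pow_left (hcard s) _
        refine (sum_le_sum h2).trans (le_of_eq ?_)
        rw [sum_const, card_univ, Fintype.card_fin, smul_eq_mul]
      exact_mod_cast h1
    have hηk : η ^ ((k : ℝ) / 2) = (1 / (2 * w : ℝ)) ^ k := by
      have e : η = (1 / (2 * w : ℝ)) ^ (2 : ℝ) := by
        rw [hη, Real.rpow_two]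
        field_simp
        ring
      rw [e, ← Real.rpow_mul (by positivity), mul_div_cancel₀ _ (by norm_num : (2 : ℝ) ≠ 0),
        Real.rpow_natCast]
    rw [hηk]
    calc (Fintype.card (Σ s : Fin T, (Fin (k + 1) → Q s)) : ℝ) *
          ((1 / (2 * w : ℝ)) ^ k * (Fintype.card X : ℝ) ^ n)
        ≤ (T * (w : ℝ) ^ (k + 1)) * ((1 / (2 * w : ℝ)) ^ k * (Fintype.card X : ℝ) ^ n) :=
          mul_le_mul_of_nonneg_right hι (by positivity)
      _ = T * w * (Fintype.card X : ℝ) ^ n * (1 / 2 : ℝ) ^ k := by
          rw [div_pow, div_pow, one_pow, mul_pow, pow_succ]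
          field_simp
  · intro s j x hx y hy
    rw [mem_filter] at hx hy ⊢
    exact ⟨mem_univ _, piece_mix (M s.1) order hm s.2 hx.2 hy.2 j.2⟩
  · intro x
    rw [hF]
    constructor
    · rintro ⟨s, hs⟩
      obtain ⟨q, hq⟩ := (accepts_iff (M s) order m x).1 ((hacc s x).1 hs)
      exact ⟨⟨s, q⟩, mem_filter.2 ⟨mem_univ _, hq⟩⟩
    · rintro ⟨⟨s, q⟩, hs⟩
      exact ⟨s, (hacc s x).2 ((accepts_iff (M s) order m x).2 ⟨q, (mem_filter.1 hs).2⟩)⟩
  · intro j x
    rw [tr_card, tblk_card order hm j.2]
    push_cast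
    exact hA _ (tblk_card order hm j.2) x

end

end Pool.Agent.Q247.BW
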